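import Mathlib

set_option autoImplicit false

namespace Pool.Agent.Results.MP_3387b7_co.NoStraightLineRep

/-- Two distinct edges have at most one common vertex. -/
def IsLinear {V : Type*} (H : Finset (Finset V)) : Prop :=
  ∀ e ∈ H, ∀ f ∈ H, e ≠ f → ∀ u v, u ∈ e → u ∈ f → v ∈ e → v ∈ f → u = v

/-- The incidence graph of the hypergraph with edge set `H`. -/
def incidenceGraph {V : Type*} (H : Finset (Finset V)) : SimpleGraph (V ⊕ {e // e ∈ H}) :=
  SimpleGraph.fromRel (fun x y => ∃ (v : V) (e : {e // e ∈ H}), x = Sum.inl v ∧ y = Sum.inr e ∧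
    v ∈ e.1)

/-- `G` has a straight-line drawing in the plane with distinct points for the vertices, no
vertex on an edge other than its end vertices, and no two edges crossing. -/
def IsPlanar {V : Type*} (G : SimpleGraph V) : Prop :=
  ∃ p : V → ℝ × ℝ, Function.Injective p ∧
    (∀ u v w, G.Adj u v → p w ∈ segment ℝ (p u) (p v) → w = u ∨ w = v) ∧
    ∀ u v u' v', G.Adj u v → G.Adj u' v' → s(u, v) ≠ s(u', v') →
      Disjoint (openSegment ℝ (p u) (p v)) (openSegment ℝ (p u') (p v'))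

/-- The hypergraph with edge set `H` has a straight-line representation: distinct points `p v`
for the vertices and segments `s e` of positive length for the edges, two segments having at most
one common point, which is then a point `p v`, and `p v` lying on `s e` exactly when `v ∈ e`. -/
def HasStraightLineRep {V : Type*} (H : Finset (Finset V)) : Prop :=
  ∃ (p : V → ℝ × ℝ) (s : Finset V → Set (ℝ × ℝ)), Function.Injective p ∧
    (∀ e ∈ H, ∃ a b, a ≠ b ∧ s e = segment ℝ a b) ∧
    (∀ e ∈ H, ∀ f ∈ H, e ≠ f →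
      (s e ∩ s f).Subsingleton ∧ ∀ x ∈ s e ∩ s f, ∃ v, x = p v) ∧
    ∀ v, ∀ e ∈ H, p v ∈ s e ↔ v ∈ e

/-- twice the signed area of the triangle `A B P` -/
def cr (A B P : ℝ × ℝ) : ℝ := (B.1 - A.1) * (P.2 - A.2) - (B.2 - A.2) * (P.1 - A.1)

theorem expr {A B C : ℝ × ℝ} (h : cr A B C ≠ 0) (P : ℝ × ℝ) :
    ∃ a b : ℝ, a + b + cr A B P / cr A B C = 1 ∧
      P = a • A + b • B + (cr A B P / cr A B C) • C := by
  refine ⟨1 - cr A P C / cr A B C - cr A B P / cr A B C, cr A P C / cr A B C, by ring, ?_⟩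
  ext
  · simp only [Prod.fst_add, Prod.smul_fst, smul_eq_mul]
    field_simp
    unfold cr
    ring
  · simp only [Prod.snd_add, Prod.smul_snd, smul_eq_mul]
    field_simp
    unfold cr
    ring

theorem cr_seg {A B P Q : ℝ × ℝ} {k l : ℝ} (h : k + l = 1) :
    cr A B (k • P + l • Q) = k * cr A B P + l * cr A B Q := by
  unfold cr
  simp only [Prod.fst_add, Prod.snd_add, Prod.smul_fst, Prod.smul_snd, smul_eq_mul]
  have e : k = 1 - l := by linarith
  rw [e]; ring

theorem on_line {A B P : ℝ × ℝ} (hne : A ≠ B) (hc : cr A B P = 0) :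
    ∃ t : ℝ, P = (1 - t) • A + t • B := by
  unfold cr at hc
  by_cases hx : B.1 - A.1 = 0
  · have hy : B.2 - A.2 ≠ 0 := by
      intro hy
      apply hne
      ext <;> linarith
    refine ⟨(P.2 - A.2) / (B.2 - A.2), ?_⟩
    rw [hx, zero_mul, zero_sub, neg_eq_zero] at hc
    have h3 : P.1 - A.1 = 0 := (mul_eq_zero.mp hc).resolve_left hy
    ext
    · simp only [Prod.fst_add, Prod.smul_fst, smul_eq_mul]
      have e1 : B.1 = A.1 := by linarith
      rw [e1]; linarith
    · simp only [Prod.snd_add, Prod.smul_snd, smul_eq_mul]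
      field_simp
      ring
  · refine ⟨(P.1 - A.1) / (B.1 - A.1), ?_⟩
    ext
    · simp only [Prod.fst_add, Prod.smul_fst, smul_eq_mul]
      field_simp
      ring
    · simp only [Prod.snd_add, Prod.smul_snd, smul_eq_mul]
      field_simp
      linarith

/-- position of a point on a line -/
theorem collinear_cases {A B P : ℝ × ℝ} (hne : A ≠ B) (hc : cr A B P = 0) :
    P = A ∨ P = B ∨ A ∈ openSegment ℝ B P ∨ P ∈ openSegment ℝ A B ∨ B ∈ openSegment ℝ A P := by
  obtain ⟨t, ht⟩ := on_line hne hc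
  rcases lt_trichotomy t 0 with h3 | h3 | h3
  · right; right; left
    refine ⟨-t / (1 - t), 1 / (1 - t), div_pos (by linarith) (by linarith),
      div_pos one_pos (by linarith), ?_, ?_⟩
    · have : (1 - t) ≠ 0 := by linarith
      field_simp
      ring
    · have h4 : (1 - t) ≠ 0 := by linarith
      rw [ht]
      ext
      · simp only [Prod.fst_add, Prod.smul_fst, smul_eq_mul]
        field_simp
        ring
      · simp only [Prod.snd_add, Prod.smul_snd, smul_eq_mul]
        field_simp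
        ring
  · left; rw [ht, h3]; simp
  · rcases lt_trichotomy t 1 with h4 | h4 | h4
    · right; right; right; left
      exact ⟨1 - t, t, by linarith, h3, by ring, ht.symm⟩
    · right; left; rw [ht, h4]; simp
    · right; right; right; right
      refine ⟨(t - 1) / t, 1 / t, div_pos (by linarith) h3, div_pos one_pos h3, ?_, ?_⟩
      · field_simp
        ring
      · rw [ht]
        ext
        · simp only [Prod.fst_add, Prod.smul_fst, smul_eq_mul]
          field_simp
          ring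
        · simp only [Prod.snd_add, Prod.smul_snd, smul_eq_mul]
          field_simp
          ring

/-- a segment leaving a side of a triangle inwards and ending outside meets another side -/
theorem exit1 {A B w b P : ℝ × ℝ} {a0 b0 a1 b1 c1 : ℝ} (ha0 : 0 < a0) (hb0 : 0 < b0)
    (h0 : a0 + b0 = 1) (h1 : a1 + b1 + c1 = 1) (hc : 0 < c1) (hneg : a1 ≤ 0 ∨ b1 ≤ 0)
    (hb : b = a0 • A + b0 • B) (hP : P = a1 • A + b1 • B + c1 • w) :
    ∃ x ∈ segment ℝ b P, x ∈ segment ℝ A w ∨ x ∈ segment ℝ B w := by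
  set f1 : ℝ → ℝ := fun t => (1 - t) * a0 + t * a1 with hf1
  set f2 : ℝ → ℝ := fun t => (1 - t) * b0 + t * b1 with hf2
  set g : ℝ → ℝ := fun t => min (f1 t) (f2 t) with hg
  have hcont : Continuous g := by
    rw [hg, hf1, hf2]
    fun_prop
  have g0 : 0 ≤ g 0 := by
    simp only [hg, hf1, hf2, sub_zero, one_mul, zero_mul, add_zero, le_min_iff]
    exact ⟨ha0.le, hb0.le⟩
  have g1 : g 1 ≤ 0 := by
    simp only [hg, hf1, hf2, sub_self, one_mul, zero_mul, zero_add, min_le_iff]
    exact hneg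
  obtain ⟨t, ht, ht0⟩ := intermediate_value_Icc' (zero_le_one' ℝ) hcont.continuousOn ⟨g1, g0⟩
  have h1' : 0 ≤ f1 t := by rw [← ht0]; exact min_le_left _ _
  have h2' : 0 ≤ f2 t := by rw [← ht0]; exact min_le_right _ _
  have h3' : 0 ≤ t * c1 := mul_nonneg ht.1 hc.le
  have hsum : f1 t + f2 t + t * c1 = 1 := by
    calc f1 t + f2 t + t * c1 = (1 - t) * (a0 + b0) + t * (a1 + b1 + c1) := by
          simp only [hf1, hf2]; ring
      _ = 1 := by rw [h0, h1]; ring
  have hx : (1 - t) • b + t • P = f1 t • A + f2 t • B + (t * c1) • w := by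
    rw [hb, hP]
    simp only [hf1, hf2]
    module
  have hz : f1 t = 0 ∨ f2 t = 0 := by
    rcases min_choice (f1 t) (f2 t) with h | h
    · left; rw [← h]; exact ht0
    · right; rw [← h]; exact ht0
  refine ⟨(1 - t) • b + t • P, ⟨1 - t, t, by linarith [ht.2], ht.1, by ring, rfl⟩, ?_⟩
  rw [hx]
  rcases hz with h | h
  · right
    rw [h] at hsum ⊢
    exact ⟨f2 t, t * c1, h2', h3', by linarith, by simp⟩
  · left
    rw [h] at hsum ⊢
    exact ⟨f1 t, t * c1, h1', h3', by linarith, by simp⟩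

/-- leaving a triangle -/
theorem exit2 {A B w u v : ℝ × ℝ} {p1 p2 p3 r1 r2 r3 : ℝ} (hp1 : 0 < p1) (hp2 : 0 < p2)
    (hp3 : 0 < p3) (hp : p1 + p2 + p3 = 1) (hr : r1 + r2 + r3 = 1)
    (hneg : r1 ≤ 0 ∨ r2 ≤ 0 ∨ r3 ≤ 0)
    (hu : u = p1 • A + p2 • B + p3 • w) (hv : v = r1 • A + r2 • B + r3 • w) :
    ∃ x ∈ segment ℝ u v, x ∈ segment ℝ A B ∨ x ∈ segment ℝ A w ∨ x ∈ segment ℝ B w := by
  set f1 : ℝ → ℝ := fun t => (1 - t) * p1 + t * r1 with hf1
  set f2 : ℝ → ℝ := fun t => (1 - t) * p2 + t * r2 with hf2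
  set f3 : ℝ → ℝ := fun t => (1 - t) * p3 + t * r3 with hf3
  set g : ℝ → ℝ := fun t => min (f1 t) (min (f2 t) (f3 t)) with hg
  have hcont : Continuous g := by
    rw [hg, hf1, hf2, hf3]
    fun_prop
  have g0 : 0 ≤ g 0 := by
    simp only [hg, hf1, hf2, hf3, sub_zero, one_mul, zero_mul, add_zero, le_min_iff]
    exact ⟨hp1.le, hp2.le, hp3.le⟩
  have g1 : g 1 ≤ 0 := by
    simp only [hg, hf1, hf2, hf3, sub_self, one_mul, zero_mul, zero_add, min_le_iff]
    exact hneg
  obtain ⟨t, ht, ht0⟩ := intermediate_value_Icc' (zero_le_one' ℝ) hcont.continuousOn ⟨g1, g0⟩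
  have h1 : 0 ≤ f1 t := by rw [← ht0]; exact min_le_left _ _
  have h2 : 0 ≤ f2 t := by rw [← ht0]; exact (min_le_right _ _).trans (min_le_left _ _)
  have h3 : 0 ≤ f3 t := by rw [← ht0]; exact (min_le_right _ _).trans (min_le_right _ _)
  have hsum : f1 t + f2 t + f3 t = 1 := by
    calc f1 t + f2 t + f3 t = (1 - t) * (p1 + p2 + p3) + t * (r1 + r2 + r3) := by
          simp only [hf1, hf2, hf3]; ring
      _ = 1 := by rw [hp, hr]; ring
  have hx : (1 - t) • u + t • v = f1 t • A + f2 t • B + f3 t • w := by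
    rw [hu, hv]
    simp only [hf1, hf2, hf3]
    module
  have hz : f1 t = 0 ∨ f2 t = 0 ∨ f3 t = 0 := by
    rcases min_choice (f1 t) (min (f2 t) (f3 t)) with h | h
    · left; rw [← h]; exact ht0
    · right
      rcases min_choice (f2 t) (f3 t) with h' | h'
      · left; rw [← h', ← h]; exact ht0
      · right; rw [← h', ← h]; exact ht0
  refine ⟨(1 - t) • u + t • v, ⟨1 - t, t, by linarith [ht.2], ht.1, by ring, rfl⟩, ?_⟩
  rw [hx]
  rcases hz with h | h | h
  · right; right
    rw [h] at hsum ⊢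
    exact ⟨f2 t, f3 t, h2, h3, by linarith, by simp⟩
  · right; left
    rw [h] at hsum ⊢
    exact ⟨f1 t, f3 t, h1, h3, by linarith, by simp⟩
  · left
    rw [h] at hsum ⊢
    exact ⟨f1 t, f2 t, h1, h2, by linarith, by simp⟩

/-- two segments of one line overlap near an interior point -/
theorem overlap2 {u v b w : ℝ × ℝ} (hb : b ∈ openSegment ℝ u v) {a1 b1 : ℝ} (h1 : a1 + b1 = 1)
    (hw : w = a1 • u + b1 • v) (hne : w ≠ b) :
    ∃ x ∈ segment ℝ b w, x ∈ segment ℝ u v ∧ x ≠ b := by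
  obtain ⟨a0, b0, ha0, hb0, h0, rfl⟩ := hb
  set μ := min a0 b0 with hμ
  have hμ0 : 0 < μ := lt_min ha0 hb0
  have hμa : μ ≤ a0 := min_le_left _ _
  have hμb : μ ≤ b0 := min_le_right _ _
  set D := 1 + |a1| + |b1| with hD
  have hD1 : 1 ≤ D := by
    have := abs_nonneg a1
    have := abs_nonneg b1
    linarith
  have hD0 : 0 < D := by linarith
  set ε := μ / D with hε
  have hε0 : 0 < ε := div_pos hμ0 hD0
  have hεD : ε * D = μ := by rw [hε]; field_simp
  have hε1 : ε ≤ 1 := by
    rw [hε, div_le_one hD0]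
    linarith
  have k1 : 0 ≤ (1 - ε) * a0 + ε * a1 := by
    have e1 := neg_abs_le a1
    have e2 := abs_nonneg b1
    have : ε * (a0 - a1) ≤ ε * D := mul_le_mul_of_nonneg_left (by linarith) hε0.le
    nlinarith
  have k2 : 0 ≤ (1 - ε) * b0 + ε * b1 := by
    have e1 := neg_abs_le b1
    have e2 := abs_nonneg a1
    have : ε * (b0 - b1) ≤ ε * D := mul_le_mul_of_nonneg_left (by linarith) hε0.le
    nlinarith
  refine ⟨(1 - ε) • (a0 • u + b0 • v) + ε • w,
    ⟨1 - ε, ε, by linarith, hε0.le, by ring, rfl⟩,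
    ⟨(1 - ε) * a0 + ε * a1, (1 - ε) * b0 + ε * b1, k1, k2, ?_, ?_⟩, ?_⟩
  · calc (1 - ε) * a0 + ε * a1 + ((1 - ε) * b0 + ε * b1) = (1 - ε) * (a0 + b0) + ε * (a1 + b1) := by
          ring
      _ = 1 := by rw [h0, h1]; ring
  · rw [hw]; module
  · intro hc
    apply hne
    have h2 : ε • (w - (a0 • u + b0 • v)) = 0 := by
      have : ε • (w - (a0 • u + b0 • v)) =
        ((1 - ε) • (a0 • u + b0 • v) + ε • w) - (a0 • u + b0 • v) := by module
      rw [this, hc, sub_self]
    have h3 := (smul_eq_zero.mp h2).resolve_left hε0.ne'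
    exact sub_eq_zero.mp h3

/-- Two segments cannot cross in an inner point of both if their end points are joined by
two-edge paths that avoid everything else. -/
theorem no_cross {u v y u' v' y' b : ℝ × ℝ} (huv : u ≠ v) (hb : b ∈ openSegment ℝ u v)
    (hb' : b ∈ openSegment ℝ u' v') (hbu : u' ≠ b)
    (hy : cr u v y ≠ 0)
    (h1 : Disjoint (segment ℝ u' v') (segment ℝ u y))
    (h2 : Disjoint (segment ℝ u' v') (segment ℝ v y))
    (h3 : (segment ℝ u v ∩ segment ℝ u' v').Subsingleton)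
    (h4 : Disjoint (segment ℝ u' y') (segment ℝ u y))
    (h5 : Disjoint (segment ℝ u' y') (segment ℝ v y))
    (h6 : Disjoint (segment ℝ u' y') (segment ℝ u v))
    (h7 : Disjoint (segment ℝ v' y') (segment ℝ u y))
    (h8 : Disjoint (segment ℝ v' y') (segment ℝ v y))
    (h9 : Disjoint (segment ℝ v' y') (segment ℝ u v)) : False := by
  have hbs : b ∈ segment ℝ u v := openSegment_subset_segment _ _ _ hb
  have hbs' : b ∈ segment ℝ u' v' := openSegment_subset_segment _ _ _ hb'
  -- the main case: u' on the side of y and v' on the other side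
  have main : ∀ U V : ℝ × ℝ, b ∈ segment ℝ U V → 
      (∀ x ∈ segment ℝ b U, x ∈ segment ℝ u' v') →
      (Disjoint (segment ℝ U y') (segment ℝ u y)) →
      (Disjoint (segment ℝ U y') (segment ℝ v y)) →
      (Disjoint (segment ℝ U y') (segment ℝ u v)) →
      (Disjoint (segment ℝ y' V) (segment ℝ u y)) →
      (Disjoint (segment ℝ y' V) (segment ℝ v y)) →
      (Disjoint (segment ℝ y' V) (segment ℝ u v)) →
      0 < cr u v U / cr u v y → cr u v V / cr u v y < 0 → False := by
    intro U V _ hsub q1 q2 q3 q4 q5 q6 hU hV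
    obtain ⟨a0, b0, ha0, hb0, h0, hbe⟩ := hb
    obtain ⟨a1, b1, hs1, he1⟩ := expr hy U
    obtain ⟨a2, b2, hs2, he2⟩ := expr hy V
    obtain ⟨a3, b3, hs3, he3⟩ := expr hy y'
    -- U is inside
    have hin : 0 < a1 ∧ 0 < b1 := by
      by_contra hc
      have hneg : a1 ≤ 0 ∨ b1 ≤ 0 := by
        by_contra hc'
        push Not at hc'
        exact hc hc'
      obtain ⟨x, hx, hx'⟩ := exit1 ha0 hb0 h0 hs1 hU hneg hbe.symm he1
      have := hsub x hx
      rcases hx' with h | h
      · exact Set.disjoint_left.mp h1 this h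
      · exact Set.disjoint_left.mp h2 this h
    -- y' is inside
    have hin' : 0 < a3 ∧ 0 < b3 ∧ 0 < cr u v y' / cr u v y := by
      by_contra hc
      have hneg : a3 ≤ 0 ∨ b3 ≤ 0 ∨ cr u v y' / cr u v y ≤ 0 := by
        by_contra hc'
        push Not at hc'
        exact hc hc'
      obtain ⟨x, hx, hx'⟩ := exit2 hin.1 hin.2 hU hs1 hs3 hneg he1 he3
      rcases hx' with h | h | h
      · exact Set.disjoint_left.mp q3 hx h
      · exact Set.disjoint_left.mp q1 hx h
      · exact Set.disjoint_left.mp q2 hx h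
    obtain ⟨x, hx, hx'⟩ := exit2 hin'.1 hin'.2.1 hin'.2.2 hs3 hs2 (Or.inr (Or.inr hV.le)) he3 he2
    rcases hx' with h | h | h
    · exact Set.disjoint_left.mp q6 hx h
    · exact Set.disjoint_left.mp q4 hx h
    · exact Set.disjoint_left.mp q5 hx h
  -- the value at b
  have hcb : cr u v b = 0 := by
    obtain ⟨a0, b0, _, _, h0, rfl⟩ := hb
    rw [cr_seg h0]
    unfold cr; ring
  obtain ⟨s, t, hs, ht, hst, hbe⟩ := hb'
  have hsum : s * cr u v u' + t * cr u v v' = 0 := by
    rw [← cr_seg hst, hbe, hcb]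
  have sub1 : ∀ x ∈ segment ℝ b u', x ∈ segment ℝ u' v' := by
    intro x hx
    exact (convex_segment u' v').segment_subset hbs' (left_mem_segment _ _ _) hx
  have sub2 : ∀ x ∈ segment ℝ b v', x ∈ segment ℝ u' v' := by
    intro x hx
    exact (convex_segment u' v').segment_subset hbs' (right_mem_segment _ _ _) hx
  by_cases hz : cr u v u' = 0
  · -- collinear
    obtain ⟨r, hr⟩ := on_line huv hz
    obtain ⟨x, hx, hx1, hx2⟩ := overlap2 hb (a1 := 1 - r) (b1 := r) (by ring) hr hbu
    exact hx2 (h3 ⟨hx1, sub1 x hx⟩ ⟨hbs, hbs'⟩)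
  · have hy2 : 0 < cr u v y ^ 2 := by positivity
    have hv' : cr u v v' = -(s / t) * cr u v u' := by
      field_simp
      linarith
    have hst0 : 0 < s / t := div_pos hs ht
    rcases lt_or_gt_of_ne (div_ne_zero hz hy) with h | h
    · -- v' on the side of y
      have hv2 : 0 < cr u v v' / cr u v y := by
        rw [hv', mul_div_assoc]
        exact mul_pos_of_neg_of_neg (by linarith) h
      refine main v' u' (by rw [segment_symm]; exact hbs') sub2 h7 h8 h9 ?_ ?_ ?_ hv2 h
      · rw [segment_symm]; exact h4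
      · rw [segment_symm]; exact h5
      · rw [segment_symm]; exact h6
    · have hv2 : cr u v v' / cr u v y < 0 := by
        rw [hv', mul_div_assoc]
        exact mul_neg_of_neg_of_pos (by linarith) h
      refine main u' v' hbs' sub1 h4 h5 h6 ?_ ?_ ?_ h hv2
      · rw [segment_symm ℝ y' v']; exact h7
      · rw [segment_symm ℝ y' v']; exact h8
      · rw [segment_symm ℝ y' v']; exact h9

/-- the edges of the example -/
def ed : Fin 28 → List (Fin 18) :=
  ![[0, 1, 2], [0, 4, 5], [1, 3, 5], [2, 3, 4], [0, 6], [1, 6], [0, 7], [2, 7], [0, 8], [4, 8],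
    [0, 9], [5, 9], [1, 10], [2, 10], [1, 11], [3, 11], [1, 12], [5, 12], [2, 13], [3, 13],
    [2, 14], [4, 14], [3, 15], [4, 15], [3, 16], [5, 16], [4, 17], [5, 17]]

/-- the edges as finite sets -/
def eds (i : Fin 28) : Finset (Fin 18) := (ed i).toFinset

/-- the hypergraph -/
def H : Finset (Finset (Fin 18)) := Finset.univ.image eds

theorem mem_eds {v : Fin 18} {i : Fin 28} : v ∈ eds i ↔ v ∈ ed i := List.mem_toFinset

theorem eds_mem (i : Fin 28) : eds i ∈ H := Finset.mem_image_of_mem _ (Finset.mem_univ i)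

theorem ed_two : ∀ i j : Fin 28, i ≠ j → ∀ u ∈ ed i, u ∈ ed j → ∀ v ∈ ed i, v ∈ ed j → u = v := by
  decide +kernel

theorem ed_card : ∀ i : Fin 28, (ed i).Nodup ∧ 2 ≤ (ed i).length ∧ (ed i).length ≤ 3 := by
  decide +kernel

theorem eds_card (i : Fin 28) : 2 ≤ (eds i).card ∧ (eds i).card ≤ 3 := by
  unfold eds
  rw [List.toFinset_card_of_nodup (ed_card i).1]
  exact (ed_card i).2

theorem eds_inj {i j : Fin 28} (h : eds i = eds j) : i = j := by
  by_contra hne
  have h1 : ∀ v, v ∈ ed i → v ∈ ed j := by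
    intro v hv
    rw [← mem_eds, ← h, mem_eds]; exact hv
  have h2 : (eds i).card ≤ 1 := by
    rw [Finset.card_le_one]
    intro u hu v hv
    rw [mem_eds] at hu hv
    exact ed_two i j hne u hu (h1 u hu) v hv (h1 v hv)
  have := (eds_card i).1
  omega

theorem H_linear : IsLinear H := by
  intro e he f hf hne u v h1 h2 h3 h4
  obtain ⟨i, -, rfl⟩ := Finset.mem_image.mp he
  obtain ⟨j, -, rfl⟩ := Finset.mem_image.mp hf
  rw [mem_eds] at h1 h2 h3 h4
  exact ed_two i j (fun h => hne (by rw [h])) u h1 h2 v h3 h4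

/-- the four triples, on the six main vertices -/
def t6 : Fin 4 → Fin 3 → Fin 6 := ![![0, 1, 2], ![0, 4, 5], ![1, 3, 5], ![2, 3, 4]]

def em (a : Fin 6) : Fin 18 := Fin.castLE (by decide) a

/-- index of the triple among all edges -/
def ti (k : Fin 4) : Fin 28 := Fin.castLE (by decide) k

/-- the new vertex joined to the two other vertices of the triple -/
def yv : Fin 4 → Fin 3 → Fin 18 := ![![10, 7, 6], ![17, 9, 8], ![16, 12, 11], ![15, 14, 13]]

def ea : Fin 4 → Fin 3 → Fin 28 := ![![12, 7, 4], ![26, 11, 8], ![24, 17, 14], ![22, 21, 18]]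

def eb : Fin 4 → Fin 3 → Fin 28 := ![![13, 6, 5], ![27, 10, 9], ![25, 16, 15], ![23, 20, 19]]

theorem data1 : ∀ (k : Fin 4) (i : Fin 3),
    em (t6 k i) ∈ ed (ti k) ∧ em (t6 k (i + 1)) ∈ ed (ea k i) ∧ yv k i ∈ ed (ea k i) ∧
    em (t6 k (i + 2)) ∈ ed (eb k i) ∧ yv k i ∈ ed (eb k i) ∧ yv k i ∉ ed (ti k) ∧
    em (t6 k (i + 1)) ∉ ed (eb k i) ∧ em (t6 k (i + 2)) ∉ ed (ea k i) ∧
    t6 k (i + 1) ≠ t6 k i ∧ t6 k (i + 2) ≠ t6 k i ∧ t6 k (i + 1) ≠ t6 k (i + 2) := by
  decide +kernel

/-- no common vertex -/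
def dj (i j : Fin 28) : Prop := ∀ v ∈ ed i, v ∉ ed j

instance (i j : Fin 28) : Decidable (dj i j) := by unfold dj; infer_instance

theorem data2 : ∀ (k l : Fin 4) (i j : Fin 3), k ≠ l → t6 k i = t6 l j →
    dj (ti l) (ea k i) ∧ dj (ti l) (eb k i) ∧ dj (ea l j) (ea k i) ∧ dj (ea l j) (eb k i) ∧
    dj (ea l j) (ti k) ∧ dj (eb l j) (ea k i) ∧ dj (eb l j) (eb k i) ∧ dj (eb l j) (ti k) := by
  decide +kernel

theorem data3 : ∀ c : Fin 4 → Fin 3, (∀ k l, t6 k (c k) = t6 l (c l) → k = l) →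
    ∀ A : Fin 6 → Bool, (∃ a, A a = true) →
    (∀ k, A (t6 k (c k)) = true → A (t6 k (c k + 1)) = true ∧ A (t6 k (c k + 2)) = true) →
    ∃ a, A a = true ∧ ∀ k, t6 k (c k) ≠ a := by
  decide +kernel

theorem data4 : ∀ c : Fin 4 → Fin 3, (∀ k l, t6 k (c k) = t6 l (c l) → k = l) →
    ∃ a b : Fin 6, a ≠ b ∧ ∀ x, (∀ k, t6 k (c k) ≠ x) → x = a ∨ x = b := by
  decide +kernel

theorem data5 : ∀ i : Fin 3, ∃ (l : Fin 4) (j : Fin 3), l ≠ 0 ∧ t6 l j = t6 0 i ∧
    t6 l (j + 1) ≠ t6 0 i := by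
  decide +kernel

theorem em_inj {a b : Fin 6} (h : em a = em b) : a = b := by
  have := congrArg Fin.val h
  exact Fin.ext this

theorem ti_ne {k l : Fin 4} (h : k ≠ l) : eds (ti k) ≠ eds (ti l) := by
  intro hc
  have := congrArg Fin.val (eds_inj hc)
  exact h (Fin.ext this)

/-- Three distinct points on a segment: one is between the other two. -/
theorem mid {A B P Q R : ℝ × ℝ} (hP : P ∈ segment ℝ A B) (hQ : Q ∈ segment ℝ A B)
    (hR : R ∈ segment ℝ A B) (h1 : P ≠ Q) (h2 : Q ≠ R) (h3 : P ≠ R) :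
    P ∈ openSegment ℝ Q R ∨ Q ∈ openSegment ℝ R P ∨ R ∈ openSegment ℝ P Q := by
  rw [segment_eq_image] at hP hQ hR
  obtain ⟨p, _, rfl⟩ := hP
  obtain ⟨q, _, rfl⟩ := hQ
  obtain ⟨r, _, rfl⟩ := hR
  have key : ∀ x y z : ℝ, x < y → y < z →
      (1 - y) • A + y • B ∈ openSegment ℝ ((1 - x) • A + x • B) ((1 - z) • A + z • B) := by
    intro x y z hxy hyz
    have h0 : z - x ≠ 0 := by linarith
    refine ⟨(z - y) / (z - x), (y - x) / (z - x), div_pos (by linarith) (by linarith),
      div_pos (by linarith) (by linarith), ?_, ?_⟩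
    · field_simp
      ring
    · ext
      · simp only [Prod.fst_add, Prod.smul_fst, smul_eq_mul]
        field_simp
        ring
      · simp only [Prod.snd_add, Prod.smul_snd, smul_eq_mul]
        field_simp
        ring
  have hpq : p ≠ q := by rintro rfl; exact h1 rfl
  have hqr : q ≠ r := by rintro rfl; exact h2 rfl
  have hpr : p ≠ r := by rintro rfl; exact h3 rfl
  rcases lt_or_gt_of_ne hpq with a | a
  · rcases lt_or_gt_of_ne hqr with b | b
    · right; left; rw [openSegment_symm]; exact key p q r a b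
    · rcases lt_or_gt_of_ne hpr with c | c
      · right; right; exact key p r q c b
      · left; rw [openSegment_symm]; exact key r p q c a
  · rcases lt_or_gt_of_ne hqr with b | b
    · rcases lt_or_gt_of_ne hpr with c | c
      · left; exact key q p r a c
      · right; right; rw [openSegment_symm]; exact key q r p b c
    · right; left; exact key r q p b a

theorem no_rep : ¬ HasStraightLineRep H := by
  rintro ⟨p, s, hp, hs, hst, hinc⟩
  -- basic facts
  have sub : ∀ (i : Fin 28) (u v : Fin 18), u ∈ ed i → v ∈ ed i →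
      segment ℝ (p u) (p v) ⊆ s (eds i) := by
    intro i u v hu hv
    obtain ⟨a, b, _, hab⟩ := hs (eds i) (eds_mem i)
    have h1 := (hinc u (eds i) (eds_mem i)).mpr (mem_eds.mpr hu)
    have h2 := (hinc v (eds i) (eds_mem i)).mpr (mem_eds.mpr hv)
    rw [hab] at h1 h2 ⊢
    exact (convex_segment a b).segment_subset h1 h2
  have hne : ∀ i j : Fin 28, dj i j → eds i ≠ eds j := by
    intro i j h hc
    obtain ⟨v, hv⟩ : (eds i).Nonempty := by
      rw [← Finset.card_pos]; have := (eds_card i).1; omega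
    have h1 := mem_eds.mp hv
    rw [hc] at hv
    exact h v h1 (mem_eds.mp hv)
  have dis : ∀ (i j : Fin 28), dj i j → ∀ u v u' v', u ∈ ed i → v ∈ ed i → u' ∈ ed j →
      v' ∈ ed j → Disjoint (segment ℝ (p u) (p v)) (segment ℝ (p u') (p v')) := by
    intro i j h u v u' v' hu hv hu' hv'
    rw [Set.disjoint_left]
    intro x hx hx'
    have h1 := sub i u v hu hv hx
    have h2 := sub j u' v' hu' hv' hx'
    obtain ⟨w, rfl⟩ := (hst _ (eds_mem i) _ (eds_mem j) (hne i j h)).2 x ⟨h1, h2⟩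
    exact h w (mem_eds.mp ((hinc w _ (eds_mem i)).mp h1))
      (mem_eds.mp ((hinc w _ (eds_mem j)).mp h2))
  have notin : ∀ (i : Fin 28) (u v w : Fin 18), u ∈ ed i → v ∈ ed i →
      p w ∈ openSegment ℝ (p u) (p v) → w ∈ ed i := by
    intro i u v w hu hv hw
    have := sub i u v hu hv (openSegment_subset_segment _ _ _ hw)
    exact mem_eds.mp ((hinc w _ (eds_mem i)).mp this)
  have pne : ∀ {a b : Fin 6}, a ≠ b → p (em a) ≠ p (em b) := by
    intro a b h hc
    exact h (em_inj (hp hc))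
  -- middle vertices
  have hmid : ∀ k : Fin 4, ∃ i : Fin 3,
      p (em (t6 k i)) ∈ openSegment ℝ (p (em (t6 k (i + 1)))) (p (em (t6 k (i + 2)))) := by
    intro k
    obtain ⟨a, b, _, hab⟩ := hs (eds (ti k)) (eds_mem _)
    have hin : ∀ i, p (em (t6 k i)) ∈ segment ℝ a b := by
      intro i
      rw [← hab]
      exact (hinc _ _ (eds_mem _)).mpr (mem_eds.mpr (data1 k i).1)
    have d0 := (data1 k 0).2.2.2.2.2.2.2.2
    rcases mid (hin 0) (hin 1) (hin 2) (pne d0.1.symm) (pne d0.2.2) (pne d0.2.1.symm)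
      with h | h | h
    · exact ⟨0, h⟩
    · exact ⟨1, h⟩
    · exact ⟨2, h⟩
  choose c hc using hmid
  -- distinctness
  have hinj : ∀ k l, t6 k (c k) = t6 l (c l) → k = l := by
    intro k l hkl
    by_contra hne'
    obtain ⟨d1, d2, d3, d4, d5, d6, d7, d8⟩ := data2 k l (c k) (c l) hne' hkl
    obtain ⟨a0, a1, a2, a3, a4, a5, a6, a7, a8, a9, a10⟩ := data1 k (c k)
    obtain ⟨b0, b1, b2, b3, b4, b5, b6, b7, b8, b9, b10⟩ := data1 l (c l)
    have k1 := (data1 k (c k + 1)).1
    have k2 := (data1 k (c k + 2)).1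
    have l1 := (data1 l (c l + 1)).1
    have l2 := (data1 l (c l + 2)).1
    have hb' := hc l
    rw [← hkl] at hb'
    have hU : p (em (t6 k (c k + 1))) ≠ p (em (t6 k (c k + 2))) := pne a10
    refine no_cross (y := p (yv k (c k))) (y' := p (yv l (c l))) hU (hc k) hb' ?_ ?_
      (dis _ _ d1 _ _ _ _ l1 l2 a1 a2)
      (dis _ _ d2 _ _ _ _ l1 l2 a3 a4) ?_
      (dis _ _ d3 _ _ _ _ b1 b2 a1 a2) (dis _ _ d4 _ _ _ _ b1 b2 a3 a4)
      (dis _ _ d5 _ _ _ _ b1 b2 k1 k2) (dis _ _ d6 _ _ _ _ b3 b4 a1 a2)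
      (dis _ _ d7 _ _ _ _ b3 b4 a3 a4) (dis _ _ d8 _ _ _ _ b3 b4 k1 k2)
    · rw [hkl]; exact pne b8
    · -- the new vertex is not on the line
      intro hcr
      rcases collinear_cases hU hcr with h | h | h | h | h
      · have := hp h
        rw [this] at a5
        exact a5 k1
      · have := hp h
        rw [this] at a5
        exact a5 k2
      · exact a6 (notin _ _ _ _ a3 a4 h)
      · exact a5 (notin _ _ _ _ k1 k2 h)
      · exact a7 (notin _ _ _ _ a1 a2 h)
    · have h1 := (hst _ (eds_mem (ti k)) _ (eds_mem (ti l)) (ti_ne hne')).1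
      intro x hx y hy
      exact h1 ⟨sub _ _ _ k1 k2 hx.1, sub _ _ _ l1 l2 hx.2⟩
        ⟨sub _ _ _ k1 k2 hy.1, sub _ _ _ l1 l2 hy.2⟩
  -- the maximum of an affine function is attained outside the middle vertices
  have hmax : ∀ f : ℝ × ℝ → ℝ, (∀ (k l : ℝ) (P Q : ℝ × ℝ), k + l = 1 →
      f (k • P + l • Q) = k * f P + l * f Q) →
      ∃ a : Fin 6, (∀ k, t6 k (c k) ≠ a) ∧ ∀ b : Fin 6, f (p (em b)) ≤ f (p (em a)) := by
    intro f hf
    obtain ⟨a0, _, ha0⟩ := Finset.exists_max_image (Finset.univ : Finset (Fin 6))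
      (fun a => f (p (em a))) ⟨0, Finset.mem_univ _⟩
    have ha0' : ∀ b, f (p (em b)) ≤ f (p (em a0)) := fun b => ha0 b (Finset.mem_univ b)
    classical
    obtain ⟨a, ha, hak⟩ := data3 c hinj (fun a => decide (f (p (em a)) = f (p (em a0))))
      ⟨a0, by simp⟩ (by
        intro k hk
        simp only [decide_eq_true_eq] at hk ⊢
        obtain ⟨x, y, hx, hy, hxy, he⟩ := hc k
        have h1 := hf x y (p (em (t6 k (c k + 1)))) (p (em (t6 k (c k + 2)))) hxy
        rw [he, hk] at h1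
        have h2 := ha0' (t6 k (c k + 1))
        have h3 := ha0' (t6 k (c k + 2))
        have ex : x = 1 - y := by linarith
        constructor
        · apply le_antisymm h2
          by_contra hcon
          push Not at hcon
          have e1 := mul_lt_mul_of_pos_left hcon hx
          have e2 := mul_le_mul_of_nonneg_left h3 hy.le
          have e3 : x * f (p (em a0)) + y * f (p (em a0)) = f (p (em a0)) := by
            rw [← add_mul, hxy, one_mul]
          linarith
        · apply le_antisymm h3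
          by_contra hcon
          push Not at hcon
          have e1 := mul_lt_mul_of_pos_left hcon hy
          have e2 := mul_le_mul_of_nonneg_left h2 hx.le
          have e3 : x * f (p (em a0)) + y * f (p (em a0)) = f (p (em a0)) := by
            rw [← add_mul, hxy, one_mul]
          linarith)
    simp only [decide_eq_true_eq] at ha
    exact ⟨a, hak, fun b => by rw [ha]; exact ha0' b⟩
  obtain ⟨q0, q1, hq, hall⟩ := data4 c hinj
  have hP : p (em q0) ≠ p (em q1) := pne hq
  set A := p (em q0) with hA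
  set B := p (em q1) with hB
  have hcrA : cr A B A = 0 := by unfold cr; ring
  have hcrB : cr A B B = 0 := by unfold cr; ring
  have hline : ∀ b : Fin 6, cr A B (p (em b)) = 0 := by
    intro b
    apply le_antisymm
    · obtain ⟨a, ha, hab⟩ := hmax (fun P => cr A B P) (fun k l P Q h => cr_seg h)
      have := hab b
      rcases hall a ha with h | h
      · rw [h] at this
        have e : cr A B (p (em q0)) = 0 := hcrA
        linarith
      · rw [h] at this
        have e : cr A B (p (em q1)) = 0 := hcrB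
        linarith
    · obtain ⟨a, ha, hab⟩ := hmax (fun P => -cr A B P)
        (fun k l P Q h => by rw [cr_seg h]; ring)
      have := hab b
      rcases hall a ha with h | h
      · rw [h] at this
        have e : cr A B (p (em q0)) = 0 := hcrA
        linarith
      · rw [h] at this
        have e : cr A B (p (em q1)) = 0 := hcrB
        linarith
  -- everything on one line: two triples overlap
  obtain ⟨l, j, hl, hlj, hw⟩ := data5 (c 0)
  obtain ⟨tu, htu⟩ := on_line hP (hline (t6 0 (c 0 + 1)))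
  obtain ⟨tv, htv⟩ := on_line hP (hline (t6 0 (c 0 + 2)))
  obtain ⟨tw, htw⟩ := on_line hP (hline (t6 l (j + 1)))
  obtain ⟨a0, a1, a2, a3, a4, a5, a6, a7, a8, a9, a10⟩ := data1 0 (c 0)
  have htuv : tv - tu ≠ 0 := by
    intro h
    have : tv = tu := by linarith
    rw [this, ← htu] at htv
    exact pne a10 htv.symm
  have hwl : p (em (t6 l (j + 1))) = ((tv - tw) / (tv - tu)) • p (em (t6 0 (c 0 + 1))) +
      ((tw - tu) / (tv - tu)) • p (em (t6 0 (c 0 + 2))) := by
    rw [htu, htv, htw]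
    ext
    · simp only [Prod.fst_add, Prod.smul_fst, smul_eq_mul]
      field_simp
      ring
    · simp only [Prod.snd_add, Prod.smul_snd, smul_eq_mul]
      field_simp
      ring
  obtain ⟨x, hx, hx1, hx2⟩ := overlap2 (hc 0) (by field_simp; ring) hwl (pne hw)
  have k1 := (data1 0 (c 0 + 1)).1
  have k2 := (data1 0 (c 0 + 2)).1
  have l0 := (data1 l j).1
  have l1 := (data1 l (j + 1)).1
  rw [hlj] at l0
  have h1 := (hst _ (eds_mem (ti 0)) _ (eds_mem (ti l)) (ti_ne hl.symm)).1
  have m1 : x ∈ s (eds (ti 0)) ∩ s (eds (ti l)) :=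
    ⟨sub _ _ _ k1 k2 hx1, sub _ _ _ l0 l1 hx⟩
  have m2 : p (em (t6 0 (c 0))) ∈ s (eds (ti 0)) ∩ s (eds (ti l)) :=
    ⟨(hinc _ _ (eds_mem _)).mpr (mem_eds.mpr a0), (hinc _ _ (eds_mem _)).mpr (mem_eds.mpr l0)⟩
  exact hx2 (h1 m1 m2)

/-- positions of the vertices in a planar drawing of the incidence graph -/
def P : Fin 18 → ℤ × ℤ :=
  ![(0, -20), (17, 10), (-17, 10), (0, 60), (-52, -30), (52, -30), (7, -6), (-10, -6), (-26, -26),
    (27, -25), (1, 9), (9, 34), (33, -11), (-10, 34), (-33, -11), (-26, 16), (26, 15), (0, -30)]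

/-- positions of the edges in a planar drawing of the incidence graph -/
def Q : Fin 28 → ℤ × ℤ :=
  ![(-2, 1), (-1, -29), (22, 13), (-24, 15), (2, -12), (14, 0), (-4, -12), (-15, 2), (-13, -25),
    (-37, -27), (13, -24), (38, -26), (8, 9), (-7, 11), (13, 21), (5, 48), (26, -1), (41, -21),
    (-13, 21), (-5, 46), (-24, 0), (-41, -21), (-14, 38), (-40, -9), (13, 39), (37, -7),
    (-28, -31), (25, -31)]

def ori (a b c : ℤ × ℤ) : ℤ := (b.1 - a.1) * (c.2 - a.2) - (b.2 - a.2) * (c.1 - a.1)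

def Sep (a b c d : ℤ × ℤ) : Prop :=
  (0 ≤ ori a b c ∧ 0 ≤ ori a b d ∧ 0 < ori a b c + ori a b d) ∨
  (ori a b c ≤ 0 ∧ ori a b d ≤ 0 ∧ ori a b c + ori a b d < 0) ∨
  (0 ≤ ori c d a ∧ 0 ≤ ori c d b ∧ 0 < ori c d a + ori c d b) ∨
  (ori c d a ≤ 0 ∧ ori c d b ≤ 0 ∧ ori c d a + ori c d b < 0)

instance (a b c d : ℤ × ℤ) : Decidable (Sep a b c d) := by unfold Sep; infer_instance

theorem chk1 : ∀ i j : Fin 28, ∀ v ∈ ed i, ∀ w ∈ ed j, ¬ (v = w ∧ i = j) →
    Sep (P v) (Q i) (P w) (Q j) := by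
  decide +kernel

theorem chk2 : ∀ i : Fin 28, ∀ v ∈ ed i, ∀ w : Fin 18, w ≠ v → ori (P v) (Q i) (P w) ≠ 0 := by
  decide +kernel

theorem chk3 : ∀ i : Fin 28, ∀ v ∈ ed i, ∀ j : Fin 28, j ≠ i → ori (P v) (Q i) (Q j) ≠ 0 := by
  decide +kernel

theorem chk4 : (∀ v w : Fin 18, P v = P w → v = w) ∧ (∀ i j : Fin 28, Q i = Q j → i = j) ∧
    ∀ v : Fin 18, ∀ i : Fin 28, P v ≠ Q i := by
  decide +kernel

/-- real coordinates -/
def toR (a : ℤ × ℤ) : ℝ × ℝ := (a.1, a.2)

theorem toR_inj {a b : ℤ × ℤ} (h : toR a = toR b) : a = b := by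
  unfold toR at h
  rw [Prod.mk.injEq] at h
  ext
  · exact_mod_cast h.1
  · exact_mod_cast h.2

theorem cr_toR (a b c : ℤ × ℤ) : cr (toR a) (toR b) (toR c) = (ori a b c : ℝ) := by
  unfold cr toR ori
  push_cast
  ring

theorem cr_self {a b x : ℝ × ℝ} (hx : x ∈ segment ℝ a b) : cr a b x = 0 := by
  obtain ⟨s, t, _, _, hst, rfl⟩ := hx
  rw [cr_seg hst]
  unfold cr; ring

theorem disj_of {a b c d : ℝ × ℝ} (h : (0 ≤ cr a b c ∧ 0 ≤ cr a b d ∧ 0 < cr a b c + cr a b d) ∨
    (cr a b c ≤ 0 ∧ cr a b d ≤ 0 ∧ cr a b c + cr a b d < 0)) :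
    Disjoint (openSegment ℝ a b) (openSegment ℝ c d) := by
  rw [Set.disjoint_left]
  intro x hx hx'
  have h0 := cr_self (openSegment_subset_segment _ _ _ hx)
  obtain ⟨s, t, hs, ht, hst, rfl⟩ := hx'
  rw [cr_seg hst] at h0
  rcases h with ⟨h1, h2, h3⟩ | ⟨h1, h2, h3⟩
  · have e1 := mul_nonneg hs.le h1
    have e2 := mul_nonneg ht.le h2
    have e3 : s * cr a b c = 0 := by linarith
    have e4 : t * cr a b d = 0 := by linarith
    have e5 := (mul_eq_zero.mp e3).resolve_left hs.ne'
    have e6 := (mul_eq_zero.mp e4).resolve_left ht.ne'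
    linarith
  · have e1 := mul_nonneg hs.le (neg_nonneg.mpr h1)
    have e2 := mul_nonneg ht.le (neg_nonneg.mpr h2)
    have e3 : s * cr a b c = 0 := by linarith
    have e4 : t * cr a b d = 0 := by linarith
    have e5 := (mul_eq_zero.mp e3).resolve_left hs.ne'
    have e6 := (mul_eq_zero.mp e4).resolve_left ht.ne'
    linarith

theorem disj_sep {a b c d : ℤ × ℤ} (h : Sep a b c d) :
    Disjoint (openSegment ℝ (toR a) (toR b)) (openSegment ℝ (toR c) (toR d)) := by
  rcases h with ⟨h1, h2, h3⟩ | ⟨h1, h2, h3⟩ | ⟨h1, h2, h3⟩ | ⟨h1, h2, h3⟩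
  · apply disj_of
    left
    rw [cr_toR, cr_toR]
    exact ⟨by exact_mod_cast h1, by exact_mod_cast h2, by exact_mod_cast h3⟩
  · apply disj_of
    right
    rw [cr_toR, cr_toR]
    exact ⟨by exact_mod_cast h1, by exact_mod_cast h2, by exact_mod_cast h3⟩
  · apply Disjoint.symm
    apply disj_of
    left
    rw [cr_toR, cr_toR]
    exact ⟨by exact_mod_cast h1, by exact_mod_cast h2, by exact_mod_cast h3⟩
  · apply Disjoint.symm
    apply disj_of
    right
    rw [cr_toR, cr_toR]
    exact ⟨by exact_mod_cast h1, by exact_mod_cast h2, by exact_mod_cast h3⟩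

theorem exists_idx (e : {e // e ∈ H}) : ∃ i : Fin 28, eds i = e.1 := by
  obtain ⟨i, -, hi⟩ := Finset.mem_image.mp e.2
  exact ⟨i, hi⟩

/-- index of an edge -/
noncomputable def idx (e : {e // e ∈ H}) : Fin 28 := (exists_idx e).choose

theorem idx_spec (e : {e // e ∈ H}) : eds (idx e) = e.1 := (exists_idx e).choose_spec

/-- the drawing -/
noncomputable def pos : Fin 18 ⊕ {e // e ∈ H} → ℝ × ℝ
  | Sum.inl v => toR (P v)
  | Sum.inr e => toR (Q (idx e))

theorem pos_inj : Function.Injective pos := by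
  intro x y h
  rcases x with v | e <;> rcases y with w | f
  · have := chk4.1 v w (toR_inj h)
    rw [this]
  · exact absurd (toR_inj h) (chk4.2.2 v (idx f))
  · exact absurd (toR_inj h).symm (chk4.2.2 w (idx e))
  · have h1 := chk4.2.1 _ _ (toR_inj h)
    have h2 := idx_spec e
    rw [h1, idx_spec f] at h2
    rw [Subtype.ext h2.symm]

/-- an edge of the incidence graph -/
theorem adj_cases {x y : Fin 18 ⊕ {e // e ∈ H}} (h : (incidenceGraph H).Adj x y) :
    ∃ (v : Fin 18) (e : {e // e ∈ H}), v ∈ ed (idx e) ∧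
      ((x = Sum.inl v ∧ y = Sum.inr e) ∨ (x = Sum.inr e ∧ y = Sum.inl v)) := by
  unfold incidenceGraph at h
  rw [SimpleGraph.fromRel_adj] at h
  rcases h.2 with ⟨v, e, h1, h2, h3⟩ | ⟨v, e, h1, h2, h3⟩
  · refine ⟨v, e, ?_, Or.inl ⟨h1, h2⟩⟩
    rw [← mem_eds, idx_spec]; exact h3
  · refine ⟨v, e, ?_, Or.inr ⟨h2, h1⟩⟩
    rw [← mem_eds, idx_spec]; exact h3

theorem H_planar : IsPlanar (incidenceGraph H) := by
  refine ⟨pos, pos_inj, ?_, ?_⟩
  · intro x y z h hz
    obtain ⟨v, e, hv, hxy⟩ := adj_cases h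
    have hz' : pos z ∈ segment ℝ (toR (P v)) (toR (Q (idx e))) := by
      rcases hxy with ⟨rfl, rfl⟩ | ⟨rfl, rfl⟩
      · exact hz
      · rw [segment_symm]; exact hz
    have h0 := cr_self hz'
    have main : z = Sum.inl v ∨ z = Sum.inr e := by
      rcases z with w | f
      · left
        by_contra hne
        have hw : w ≠ v := fun hc => hne (by rw [hc])
        have h1 : cr (toR (P v)) (toR (Q (idx e))) (toR (P w)) = 0 := h0
        rw [cr_toR] at h1
        exact chk2 _ v hv w hw (by exact_mod_cast h1)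
      · right
        by_contra hne
        have hw : idx f ≠ idx e := by
          intro hc
          apply hne
          have h2 := idx_spec f
          rw [hc, idx_spec e] at h2
          rw [Subtype.ext h2.symm]
        have h1 : cr (toR (P v)) (toR (Q (idx e))) (toR (Q (idx f))) = 0 := h0
        rw [cr_toR] at h1
        exact chk3 _ v hv _ hw (by exact_mod_cast h1)
    rcases hxy with ⟨rfl, rfl⟩ | ⟨rfl, rfl⟩
    · exact main
    · exact main.symm
  · intro x y x' y' h h' hne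
    obtain ⟨v, e, hv, hxy⟩ := adj_cases h
    obtain ⟨w, f, hw, hxy'⟩ := adj_cases h'
    have hd : ¬ (v = w ∧ idx e = idx f) := by
      rintro ⟨rfl, h2⟩
      have h3 : e = f := by
        have h4 := idx_spec e
        rw [h2, idx_spec f] at h4
        exact Subtype.ext h4.symm
      subst h3
      apply hne
      rcases hxy with ⟨rfl, rfl⟩ | ⟨rfl, rfl⟩ <;> rcases hxy' with ⟨rfl, rfl⟩ | ⟨rfl, rfl⟩
      · rfl
      · exact Sym2.eq_swap
      · exact Sym2.eq_swap
      · rfl
    have key := disj_sep (chk1 _ _ v hv w hw hd)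
    have e1 : openSegment ℝ (pos x) (pos y) = openSegment ℝ (toR (P v)) (toR (Q (idx e))) := by
      rcases hxy with ⟨rfl, rfl⟩ | ⟨rfl, rfl⟩
      · rfl
      · rw [openSegment_symm]; rfl
    have e2 : openSegment ℝ (pos x') (pos y') = openSegment ℝ (toR (P w)) (toR (Q (idx f))) := by
      rcases hxy' with ⟨rfl, rfl⟩ | ⟨rfl, rfl⟩
      · rfl
      · rw [openSegment_symm]; rfl
    rw [e1, e2]
    exact key

/-- There is a planar linear hypergraph, with edges of size 2 and 3 only, that has no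
straight-line representation. -/
theorem result : ∃ (n : ℕ) (H : Finset (Finset (Fin n))), (∀ e ∈ H, 2 ≤ e.card ∧ e.card ≤ 3) ∧
    IsLinear H ∧ IsPlanar (incidenceGraph H) ∧ ¬ HasStraightLineRep H := by
  refine ⟨18, H, ?_, H_linear, H_planar, no_rep⟩
  intro e he
  obtain ⟨i, -, rfl⟩ := Finset.mem_image.mp he
  exact eds_card i

end Pool.Agent.Results.MP_3387b7_co.NoStraightLineRep
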